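import Mathlib
import Pool.Agent.H50.PottsE

namespace Pool.Agent.Results.MP_82263f_pr.CensoringFails

section model
variable {V C : Type} [Fintype V] [DecidableEq V] [Fintype C] [DecidableEq C]

/-- Potts weight: exp of beta times the number of edges whose ends have the same colour. -/
noncomputable def weight (G : SimpleGraph V) (β : ℝ) (σ : V → C) : ℝ :=
  Real.exp (β * (Set.ncard {e ∈ G.edgeSet | (e.map σ).IsDiag} : ℝ))

/-- The Potts measure pi. -/
noncomputable def gibbs (G : SimpleGraph V) (β : ℝ) (σ : V → C) : ℝ :=
  weight G β σ / ∑ τ : V → C, weight G β τ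

/-- Heat-bath kernel P_v(sigma, tau): keep the spins off v, resample the spin at v from its
conditional law under pi. -/
noncomputable def kernel (G : SimpleGraph V) (β : ℝ) (v : V) (σ τ : V → C) : ℝ :=
  if ∀ u, u ≠ v → σ u = τ u then gibbs G β τ / ∑ c : C, gibbs G β (Function.update σ v c) else 0

/-- The distribution mu P_v. -/
noncomputable def step (G : SimpleGraph V) (β : ℝ) (μ : (V → C) → ℝ) (v : V) : (V → C) → ℝ :=
  fun τ => ∑ σ : V → C, μ σ * kernel G β v σ τ

/-- The law after updating the sites of l in order, started from the constant configuration g. -/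
noncomputable def law (G : SimpleGraph V) (β : ℝ) (g : C) (l : List V) : (V → C) → ℝ :=
  l.foldl (step G β) (fun σ => if σ = fun _ => g then 1 else 0)

/-- Total variation distance: the largest difference of the masses of a set. -/
noncomputable def tv {Ω : Type} (μ ν : Ω → ℝ) : ℝ :=
  ⨆ A : Finset Ω, |∑ σ ∈ A, μ σ - ∑ σ ∈ A, ν σ|

end model

theorem result (q : ℕ) (hq : 3 ≤ q) (g : Fin q) :
    ∃ (n : ℕ) (G : SimpleGraph (Fin n)) (β : ℝ) (v w : List (Fin n)),
      0 < β ∧ w.Sublist v ∧ tv (law G β g w) (gibbs G β) < tv (law G β g v) (gibbs G β) :=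
  Pool.Agent.H50.Potts.main g (by simpa using hq)

end Pool.Agent.Results.MP_82263f_pr.CensoringFails
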